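import Pool.Agent.MP_257582_lc.H49.Twin2

/-!
First-order definable properties do not see the sizes of large twin classes.
-/

set_option autoImplicit false

namespace Pool.Agent.MP_257582_lc.H49

open Finset FirstOrder FirstOrder.Language

lemma fo_extend {V K : Type} [Fintype V] [DecidableEq V] [DecidableEq K] {φ ψ : V → K} {m : ℕ}
    (hψ : ∀ i, m < (univ.filter fun x => ψ x = i).card) {x y : Fin m → V}
    (h1 : ∀ i, φ (x i) = ψ (y i)) (h2 : ∀ i j, x i = x j ↔ y i = y j) (a : V) :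
    ∃ b, φ a = ψ b ∧ ∀ i, x i = a ↔ y i = b := by
  by_cases h : ∃ j, x j = a
  · obtain ⟨j, rfl⟩ := h
    exact ⟨y j, h1 j, fun i => h2 i j⟩
  · obtain ⟨b, hb, hb'⟩ := exists_mem_notMem_of_card_lt_card (s := univ.image y)
      (card_image_le.trans_lt (by simpa using hψ (φ a)))
    exact ⟨b, (mem_filter.1 hb).2.symm, fun i =>
      ⟨fun e => absurd ⟨i, e⟩ h, fun e => absurd (mem_image.2 ⟨i, mem_univ _, e⟩) hb'⟩⟩

lemma fo_term {m : ℕ} (t : Language.graph.Term (Empty ⊕ Fin m)) :
    ∃ i, t = Term.var (Sum.inr i) := by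
  cases t with
  | var v =>
    cases v with
    | inl e => exact e.elim
    | inr i => exact ⟨i, rfl⟩
  | func f _ => exact f.elim

lemma fo_twin {m : ℕ} (θ : Language.graph.BoundedFormula Empty m) :
    ∃ q : ℕ, ∀ {V K : Type} [Fintype V] [DecidableEq V] [DecidableEq K] (G H : SimpleGraph V)
      (φ ψ : V → K), (∀ i, q ≤ (univ.filter fun x => φ x = i).card) →
      (∀ i, q ≤ (univ.filter fun x => ψ x = i).card) →
      (∀ a b c d, φ a = ψ c → φ b = ψ d → (a = b ↔ c = d) → (G.Adj a b ↔ H.Adj c d)) →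
      ∀ x y : Fin m → V, (∀ i, φ (x i) = ψ (y i)) → (∀ i j, x i = x j ↔ y i = y j) →
        (@BoundedFormula.Realize _ V G.structure _ _ θ default x ↔
          @BoundedFormula.Realize _ V H.structure _ _ θ default y) := by
  induction θ with
  | falsum => exact ⟨0, fun _ _ _ _ _ _ _ _ _ _ _ => Iff.rfl⟩
  | equal t1 t2 =>
    obtain ⟨i, rfl⟩ := fo_term t1
    obtain ⟨j, rfl⟩ := fo_term t2
    exact ⟨0, fun _ _ _ _ _ _ _ _ _ _ h => h i j⟩
  | rel R ts =>
    cases R
    obtain ⟨i, hi⟩ := fo_term (ts 0)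
    obtain ⟨j, hj⟩ := fo_term (ts 1)
    refine ⟨0, fun G H _ _ _ _ h x y h1 h2 => ?_⟩
    change G.Adj (@Term.realize _ _ G.structure _ _ (ts 0)) (@Term.realize _ _ G.structure _ _ (ts 1))
      ↔ H.Adj (@Term.realize _ _ H.structure _ _ (ts 0)) (@Term.realize _ _ H.structure _ _ (ts 1))
    rw [hi, hj]
    exact h _ _ _ _ (h1 i) (h1 j) (h2 i j)
  | imp f1 f2 ih1 ih2 =>
    obtain ⟨q1, ih1⟩ := ih1
    obtain ⟨q2, ih2⟩ := ih2
    exact ⟨max q1 q2, fun G H φ ψ hφ hψ h x y h1 h2 => imp_congr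
      (ih1 G H φ ψ (fun i => le_of_max_le_left (hφ i)) (fun i => le_of_max_le_left (hψ i)) h x y h1 h2)
      (ih2 G H φ ψ (fun i => le_of_max_le_right (hφ i)) (fun i => le_of_max_le_right (hψ i)) h x y
        h1 h2)⟩
  | @all m f ih =>
    obtain ⟨q, ih⟩ := ih
    refine ⟨max q (m + 1), fun G H φ ψ hφ hψ h x y h1 h2 => ?_⟩
    have key : ∀ a b, φ a = ψ b → (∀ i, x i = a ↔ y i = b) →
        (@BoundedFormula.Realize _ _ G.structure _ _ f default (Fin.snoc x a) ↔
          @BoundedFormula.Realize _ _ H.structure _ _ f default (Fin.snoc y b)) := by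
      intro a b h3 h4
      refine ih G H φ ψ (fun i => le_of_max_le_left (hφ i)) (fun i => le_of_max_le_left (hψ i)) h
        _ _ (fun i => ?_) fun i j => ?_
      · induction i using Fin.lastCases <;> simp [h1, h3]
      · induction i using Fin.lastCases <;> induction j using Fin.lastCases <;>
          simp [h2, h4, eq_comm (a := a), eq_comm (a := b)]
    constructor
    · intro h5 b
      obtain ⟨a, h3, h4⟩ := fo_extend (φ := ψ) (ψ := φ) (fun i => le_of_max_le_right (hφ i))
        (fun i => (h1 i).symm) (fun i j => (h2 i j).symm) b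
      exact (key a b h3.symm fun i => (h4 i).symm).1 (h5 a)
    · intro h5 a
      obtain ⟨b, h3, h4⟩ := fo_extend (fun i => le_of_max_le_right (hψ i)) h1 h2 a
      exact (key a b h3 h4).2 (h5 b)

/-- the property defined by a first-order sentence satisfies the hypothesis of `twin` -/
theorem fo_insensitive (θ : Language.graph.Sentence) : ∃ q : ℕ, 1 ≤ q ∧ ∀ (n k : ℕ)
    (T : SimpleGraph (Fin k)) (φ ψ : Fin n → Fin k),
    (∀ i, q ≤ (univ.filter fun x => φ x = i).card) →
    (∀ i, q ≤ (univ.filter fun x => ψ x = i).card) →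
    (@Sentence.Realize _ (Fin n) (T.comap φ).structure θ ↔
      @Sentence.Realize _ (Fin n) (T.comap ψ).structure θ) ∧
    (@Sentence.Realize _ (Fin n) (T.comap φ)ᶜ.structure θ ↔
      @Sentence.Realize _ (Fin n) (T.comap ψ)ᶜ.structure θ) := by
  obtain ⟨q, hq⟩ := fo_twin θ
  refine ⟨q + 1, by omega, fun n k T φ ψ hφ hψ => ⟨?_, ?_⟩⟩
  · exact hq _ _ φ ψ (fun i => Nat.le_of_succ_le (hφ i)) (fun i => Nat.le_of_succ_le (hψ i))
      (fun a b c d h1 h2 _ => by simp [h1, h2]) default default (fun i => i.elim0)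
      fun i => i.elim0
  · exact hq _ _ φ ψ (fun i => Nat.le_of_succ_le (hφ i)) (fun i => Nat.le_of_succ_le (hψ i))
      (fun a b c d h1 h2 h3 => by simp [h1, h2, h3]) default default (fun i => i.elim0)
      fun i => i.elim0

end Pool.Agent.MP_257582_lc.H49
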