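import Pool.Agent.MP_257582_lc.Oliver

/-!
Acyclicity under substitutions that tie several edges to one variable, and the two symmetry steps
for blow-ups of templates on a field of characteristic two.
-/

set_option autoImplicit false

namespace Pool.Agent.MP_257582_lc.H49

open Finset

section subst

variable {α β V F : Type*} [DecidableEq α] [Fintype V] [DecidableEq V] [Field F]

lemma acyc_subst_aux {r : V → ℕ} (hr : Function.Injective r) (mem : α → β → Prop)
    (G : Finset V → β) (f : β → Prop) (hf : ∀ X Y, X ⊆ Y → f (G Y) → f (G X))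
    (s : Finset α → β → α) (hs : ∀ Q x y, (∀ e ∈ Q, (mem e x ↔ mem e y)) → s Q x = s Q y)
    (t : α → V) (ht : ∀ e X Y, (t e ∈ X ↔ t e ∈ Y) → (mem e (G X) ↔ mem e (G Y))) (k : ℕ) :
    ∀ (Q : Finset α) (B E : Finset V), k < E.card → (∀ e ∈ Q, t e ∉ E) →
      (∀ A, A ⊆ E → ∀ y, (∀ e ∈ (fun Q => insert (s Q (G (B ∪ A))) Q)^[k] Q,
        (mem e (G (B ∪ A)) ↔ mem e y)) → f y → f (G (B ∪ A))) →
      Acyc F r {A | A ⊆ E ∧ f (G (B ∪ A))} := by
  have agree : ∀ (Q : Finset α) (B E A A' : Finset V), (∀ e ∈ Q, t e ∉ E) → A ⊆ E → A' ⊆ E →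
      ∀ e ∈ Q, (mem e (G (B ∪ A)) ↔ mem e (G (B ∪ A'))) := fun Q B E A A' hEQ hA hA' e he => by
    have h1 : t e ∉ A := fun h => hEQ e he (hA h)
    have h2 : t e ∉ A' := fun h => hEQ e he (hA' h)
    exact ht _ _ _ (by simp [h1, h2])
  induction k with
  | zero =>
    intro Q B E hE hEQ h
    obtain ⟨a, ha⟩ := card_pos.1 hE
    refine acyc_cone hr a ?_
    rintro A ⟨hA, hfA⟩
    have hA' : insert a A ⊆ E := insert_subset ha hA
    exact ⟨hA', h _ hA' _ (agree Q B E _ _ hEQ hA' hA) hfA⟩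
  | succ k ih =>
    intro Q B E hE hEQ h
    set e := s Q (G (B ∪ ∅)) with he
    have hsA : ∀ A, A ⊆ E → s Q (G (B ∪ A)) = e := fun A hA =>
      hs _ _ _ (agree Q B E A ∅ hEQ hA (empty_subset _))
    have h' : ∀ A, A ⊆ E → ∀ y,
        (∀ x ∈ (fun Q => insert (s Q (G (B ∪ A))) Q)^[k] (insert e Q),
          (mem x (G (B ∪ A)) ↔ mem x y)) → f y → f (G (B ∪ A)) := fun A hA Y hY => by
      refine h A hA Y ?_
      rw [Function.iterate_succ_apply, hsA A hA]
      exact hY
    by_cases heE : t e ∈ E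
    · have hc : k < (E.erase (t e)).card := by rw [card_erase_of_mem heE]; omega
      have hQ : ∀ x ∈ insert e Q, t x ∉ E.erase (t e) := fun x hx => by
        rcases mem_insert.1 hx with rfl | hx
        · exact notMem_erase _ _
        · exact fun h => hEQ x hx (mem_of_mem_erase h)
      refine acyc_link_del hr (fun A A' hAA hA => ⟨hAA.trans hA.1,
        hf _ _ (union_subset_union_right hAA) hA.2⟩) (t e) ?_ ?_
      · have := ih (insert e Q) (insert (t e) B) (E.erase (t e)) hc hQ (fun A hA Y hY => by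
          rw [insert_union, ← union_insert] at hY ⊢
          exact h' _ (insert_subset heE (hA.trans (erase_subset _ _))) Y hY)
        convert this using 1
        ext A
        simp only [Set.mem_ofPred_eq, subset_erase, insert_subset_iff, heE, true_and, insert_union,
          union_insert]
        tauto
      · have := ih (insert e Q) B (E.erase (t e)) hc hQ (fun A hA Y hY =>
          h' _ (hA.trans (erase_subset _ _)) Y hY)
        convert this using 1
        ext A
        simp only [Set.mem_ofPred_eq, subset_erase]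
        tauto
    · refine ih (insert e Q) B E (by omega) (fun x hx => ?_) h'
      rcases mem_insert.1 hx with rfl | hx
      · exact heE
      · exact hEQ x hx

theorem acyc_subst {r : V → ℕ} (hr : Function.Injective r) (mem : α → β → Prop)
    (G : Finset V → β) (f : β → Prop) (hf : ∀ X Y, X ⊆ Y → f (G Y) → f (G X))
    (s : Finset α → β → α) (hs : ∀ Q x y, (∀ e ∈ Q, (mem e x ↔ mem e y)) → s Q x = s Q y)
    (t : α → V) (ht : ∀ e X Y, (t e ∈ X ↔ t e ∈ Y) → (mem e (G X) ↔ mem e (G Y))) (d : ℕ)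
    (hd : d < Fintype.card V)
    (h : ∀ x y, (∀ e ∈ (fun Q => insert (s Q x) Q)^[d] ∅, (mem e x ↔ mem e y)) → f y → f x) :
    Acyc F r {A | f (G A)} := by
  have := acyc_subst_aux (F := F) hr mem G f hf s hs t ht d ∅ ∅ univ (by simpa using hd)
    (by simp) (fun A _ y hy => h _ y hy)
  simpa using this

end subst

variable {W K : Type}

/-- pairs with different labels -/
def Pr (lab : W → K) : Type := {e : Sym2 W // ¬ (e.map lab).IsDiag}

noncomputable instance (lab : W → K) : DecidableEq (Pr lab) := Classical.decEq _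

noncomputable instance [Fintype W] (lab : W → K) : Fintype (Pr lab) := by
  classical
  unfold Pr
  infer_instance

/-- the pair of two points with different labels -/
def mkP {lab : W → K} (x y : W) (h : lab x ≠ lab y) : Pr lab := ⟨s(x, y), by simpa using h⟩

lemma exists_mkP {lab : W → K} (v : Pr lab) : ∃ x y h, v = mkP x y h := by
  obtain ⟨e, he⟩ := v
  induction e using Sym2.ind with
  | _ x y => exact ⟨x, y, by simpa using he, rfl⟩

/-- the graph of a set of pairs -/
def gr {lab : W → K} (A : Finset (Pr lab)) : SimpleGraph W where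
  Adj x y := ∃ v ∈ A, v.1 = s(x, y)
  symm := ⟨fun _ _ ⟨v, hv, h⟩ => ⟨v, hv, h.trans Sym2.eq_swap⟩⟩
  loopless := ⟨fun x ⟨v, _, h⟩ => v.2 (by rw [h]; simp)⟩

lemma gr_adj {lab : W → K} (A : Finset (Pr lab)) (x y : W) :
    (gr A).Adj x y ↔ ∃ h : lab x ≠ lab y, mkP x y h ∈ A := by
  constructor
  · rintro ⟨v, hv, h⟩
    have h1 : lab x ≠ lab y := by simpa [h] using v.2
    exact ⟨h1, (Subtype.ext h : v = mkP x y h1) ▸ hv⟩
  · rintro ⟨h, hv⟩
    exact ⟨_, hv, rfl⟩

lemma gr_mono {lab : W → K} {A B : Finset (Pr lab)} (h : A ⊆ B) : gr A ≤ gr B :=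
  fun _ _ ⟨v, hv, e⟩ => ⟨v, h hv, e⟩

/-- action of a permutation respecting the labels -/
def act {lab : W → K} (σ : Equiv.Perm W) (h : ∀ x y, lab (σ x) = lab (σ y) ↔ lab x = lab y) :
    Equiv.Perm (Pr lab) where
  toFun v := ⟨v.1.map σ, by
    obtain ⟨x, y, hxy, rfl⟩ := exists_mkP v
    simpa [mkP, h] using hxy⟩
  invFun v := ⟨v.1.map σ.symm, by
    obtain ⟨x, y, hxy, rfl⟩ := exists_mkP v
    simpa [mkP, ← h (σ.symm x)] using hxy⟩
  left_inv v := Subtype.ext (by simp [Sym2.map_map])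
  right_inv v := Subtype.ext (by simp [Sym2.map_map])

lemma act_val {lab : W → K} (σ : Equiv.Perm W)
    (h : ∀ x y, lab (σ x) = lab (σ y) ↔ lab x = lab y) (v : Pr lab) :
    (act σ h v).1 = v.1.map σ := rfl

lemma act_pow_val {lab : W → K} (σ : Equiv.Perm W)
    (h : ∀ x y, lab (σ x) = lab (σ y) ↔ lab x = lab y) (j : ℕ) (v : Pr lab) :
    ((act σ h ^ j) v).1 = v.1.map (σ ^ j) := by
  induction j with
  | zero => simp
  | succ j ih =>
    rw [pow_succ', pow_succ', Equiv.Perm.mul_apply, act_val, ih, Sym2.map_map]; rfl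

lemma gr_map {lab : W → K} (σ : Equiv.Perm W)
    (h : ∀ x y, lab (σ x) = lab (σ y) ↔ lab x = lab y) (A : Finset (Pr lab)) :
    (gr (A.map (act σ h).toEmbedding)).comap σ = gr A := by
  ext x y
  rw [SimpleGraph.comap_adj, gr_adj, gr_adj]
  constructor
  · rintro ⟨h1, h2⟩
    have h3 : lab x ≠ lab y := fun e => h1 ((h x y).2 e)
    refine ⟨h3, ?_⟩
    have : mkP (σ x) (σ y) h1 = (act σ h).toEmbedding (mkP x y h3) := rfl
    rwa [this, mem_map'] at h2
  · rintro ⟨h1, h2⟩
    exact ⟨fun e => h1 ((h x y).1 e), mem_map.2 ⟨_, h2, rfl⟩⟩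

/-- the pair of labels -/
def down (lab : W → K) (v : Pr lab) : Pr (id : K → K) := ⟨v.1.map lab, by simpa using v.2⟩

lemma gr_filter [Fintype W] (lab : W → K) (T : Finset (Pr (id : K → K))) :
    gr (univ.filter fun v => down lab v ∈ T) = (gr T).comap lab := by
  ext x y
  rw [SimpleGraph.comap_adj, gr_adj, gr_adj]
  simp only [mem_filter, mem_univ, true_and]
  rfl

theorem stepA [Fintype W] [Fintype K] {ι : Type} [Fintype ι] [DecidableEq ι] {lab : W → K}
    (hlab : Function.Surjective lab) (φ : (ι → ZMod 2) → Equiv.Perm W) (h0 : φ 0 = 1)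
    (hadd : ∀ a b, φ (a + b) = φ a * φ b) (hφ : ∀ u x, lab (φ u x) = lab x)
    (htr : ∀ x y x' y', lab x = lab x' → lab y = lab y' → lab x ≠ lab y →
      ∃ u, φ u x = x' ∧ φ u y = y')
    (g : SimpleGraph W → Prop) (anti : ∀ G H, G ≤ H → g H → g G)
    (inv : ∀ u G, g (G.comap (φ u)) ↔ g G) {r : Pr lab → ℕ} (hr : Function.Injective r)
    (hA : Acyc (ZMod 2) r {A | g (gr A)}) {r' : Pr (id : K → K) → ℕ}
    (hr' : Function.Injective r') : Acyc (ZMod 2) r' {T | g ((gr T).comap lab)} := by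
  have hφ' : ∀ u x y, lab (φ u x) = lab (φ u y) ↔ lab x = lab y := fun u x y => by rw [hφ, hφ]
  have := oliver_acyc (F := ZMod 2) (p := 2) (φ := fun u => act (φ u) (hφ' u))
    (K := {A | g (gr A)})
    (Equiv.ext fun v => Subtype.ext (by simp [act_val, h0]))
    (fun b c => Equiv.ext fun v => Subtype.ext (by simp [act_val, hadd, Sym2.map_map]))
    (fun A B h hA => anti _ _ (gr_mono h) hA)
    (fun u A => by
      simp only [Set.mem_ofPred_eq]
      rw [← inv u, gr_map]) hr hA (q := down lab)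
    (fun w => by
      obtain ⟨i, j, hij, rfl⟩ := exists_mkP w
      obtain ⟨x, rfl⟩ := hlab i
      obtain ⟨y, rfl⟩ := hlab j
      exact ⟨mkP x y hij, rfl⟩)
    (fun u v => by
      obtain ⟨x, y, hxy, rfl⟩ := exists_mkP v
      refine Subtype.ext ?_
      change s(lab (φ u x), lab (φ u y)) = s(lab x, lab y)
      rw [hφ, hφ])
    (fun v v' h => by
      obtain ⟨x, y, hxy, rfl⟩ := exists_mkP v
      obtain ⟨x', y', hxy', rfl⟩ := exists_mkP v'
      have h1 : s(lab x, lab y) = s(lab x', lab y') := congrArg Subtype.val h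
      rcases Sym2.eq_iff.1 h1 with h2 | h2
      · obtain ⟨u, rfl, rfl⟩ := htr x y x' y' h2.1 h2.2 hxy
        exact ⟨u, rfl⟩
      · obtain ⟨u, rfl, rfl⟩ := htr x y y' x' h2.1 h2.2 hxy
        exact ⟨u, Subtype.ext Sym2.eq_swap⟩) hr'
  convert this using 1
  ext T
  simp only [quo, Set.mem_ofPred_eq]
  rw [← gr_filter]

theorem stepB [Field K] [Fintype K] [Algebra (ZMod 2) K]
    (g : SimpleGraph K → Prop) (anti : ∀ G H, G ≤ H → g H → g G)
    (inv : ∀ (σ : Equiv.Perm K) G, g (G.comap σ) ↔ g G) (bot : g ⊥)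
    {r : Pr (id : K → K) → ℕ} (hr : Function.Injective r)
    (hA : Acyc (ZMod 2) r {A | g (gr A)}) : g ⊤ := by
  classical
  have hσ : ∀ (σ : Equiv.Perm K) x y, id (σ x) = id (σ y) ↔ id x = id y := fun σ x y =>
    σ.injective.eq_iff
  let b := (Module.finBasis (ZMod 2) K).equivFun.symm
  obtain ⟨γ, hγ⟩ := IsCyclic.exists_monoid_generator (α := Kˣ)
  let m : Equiv.Perm K := Equiv.mulLeft₀ (γ : K) γ.ne_zero
  have hm : ∀ (j : ℕ) x, (m ^ j) x = (γ : K) ^ j * x := fun j x => by
    induction j with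
    | zero => simp
    | succ j ih => rw [pow_succ', Equiv.Perm.mul_apply, ih, pow_succ', mul_assoc]; rfl
  have hinv : ∀ (σ : Equiv.Perm K) (A : Finset (Pr (id : K → K))),
      A.map (act σ (hσ σ)).toEmbedding ∈ {A | g (gr A)} ↔ A ∈ {A | g (gr A)} := fun σ A => by
    simp only [Set.mem_ofPred_eq]
    rw [← inv σ, gr_map]
  have := oliver_euler (F := ZMod 2) (p := 2) (φ := fun u => act (Equiv.addLeft (b u)) (hσ _))
    (K := {A | g (gr A)})
    (Equiv.ext fun v => Subtype.ext (by simp [act_val]))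
    (fun u u' => Equiv.ext fun v => Subtype.ext (by
      obtain ⟨x, y, hxy, rfl⟩ := exists_mkP v
      change s(b (u + u') + x, b (u + u') + y) = s(b u + (b u' + x), b u + (b u' + y))
      rw [map_add, add_assoc, add_assoc]))
    (fun A B h hA => anti _ _ (gr_mono h) hA) (fun u => hinv _) hr hA (g := act m (hσ m)) (hinv m)
    (fun u => ⟨b.symm (γ * b u), Equiv.ext fun v => Subtype.ext (by
      obtain ⟨x, y, hxy, rfl⟩ := exists_mkP v
      change s(γ * (b u + x), γ * (b u + y)) =
        s(b (b.symm (γ * b u)) + γ * x, b (b.symm (γ * b u)) + γ * y)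
      rw [LinearEquiv.apply_symm_apply, mul_add, mul_add])⟩)
    (q := fun _ => ()) (fun _ => ⟨mkP 0 1 zero_ne_one, rfl⟩) (fun _ _ => rfl) (fun _ => rfl)
    (fun v v' _ => by
      obtain ⟨x, y, hxy, rfl⟩ := exists_mkP v
      obtain ⟨x', y', hxy', rfl⟩ := exists_mkP v'
      have h1 : x - y ≠ 0 := sub_ne_zero.2 hxy
      have h2 : x' - y' ≠ 0 := sub_ne_zero.2 hxy'
      obtain ⟨j, hj⟩ := hγ (Units.mk0 _ (div_ne_zero h2 h1))
      have h3 : (γ : K) ^ j * (x - y) = x' - y' := by
        have := congrArg Units.val hj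
        simp only [Units.val_pow_eq_pow_val, Units.val_mk0] at this
        rw [this, div_mul_cancel₀ _ h1]
      refine ⟨b.symm (x' - γ ^ j * x), j, Subtype.ext ?_⟩
      rw [act_val, act_pow_val]
      simp only [mkP, Sym2.map_mk, hm, LinearEquiv.apply_symm_apply, Equiv.coe_addLeft]
      congr 1
      · ring
      · linear_combination -h3)
  by_contra htop
  have e1 : (∅ : Finset Unit) ∈ quo (fun _ : Pr (id : K → K) => ()) {A | g (gr A)} := by
    simp only [quo, Set.mem_ofPred_eq]
    refine anti _ _ ?_ bot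
    rintro x y ⟨v, hv, _⟩
    simp at hv
  have e2 : ({()} : Finset Unit) ∉ quo (fun _ : Pr (id : K → K) => ()) {A | g (gr A)} := by
    simp only [quo, Set.mem_ofPred_eq]
    refine fun h => htop (anti _ _ ?_ h)
    intro x y hxy
    exact (gr_adj _ x y).2 ⟨hxy, by simp⟩
  have e3 : (univ : Finset (Finset Unit)) = {∅, {()}} := by decide
  rw [e3, sum_pair (by decide), if_pos e1, if_neg e2] at this
  simp at this

end Pool.Agent.MP_257582_lc.H49
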