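import Pool.Agent.MP_257582_lc.H49.Twin1

/-!
Properties that do not see the sizes of large twin classes need almost all queries.
-/

set_option autoImplicit false

namespace Pool.Agent.MP_257582_lc.H49

open Finset

variable {W K : Type}

lemma card_Pr [Fintype W] [DecidableEq W] [DecidableEq K] (lab : W → K) {b : ℕ}
    (hb : ∀ i, (univ.filter fun x => lab x = i).card ≤ b) :
    (Fintype.card W + 1).choose 2 ≤ Fintype.card (Pr lab) + Fintype.card W * b := by
  have h1 : (univ : Finset (Sym2 W)) ⊆ (univ.image fun v : Pr lab => v.1) ∪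
      univ.biUnion fun x => (univ.filter fun y => lab y = lab x).image fun y => s(x, y) := by
    intro e _
    induction e using Sym2.ind with
    | _ x y =>
      by_cases h : lab x = lab y
      · refine mem_union_right _ (mem_biUnion.2 ⟨x, mem_univ _, mem_image.2 ⟨y, ?_, rfl⟩⟩)
        simp [h]
      · exact mem_union_left _ (mem_image.2 ⟨mkP x y h, mem_univ _, rfl⟩)
  rw [← Sym2.card]
  refine (card_le_card h1).trans ((card_union_le _ _).trans (add_le_add card_image_le ?_))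
  exact card_biUnion_le_card_mul _ _ _ fun x _ => card_image_le.trans (hb _)

theorem core {n d q : ℕ} (f : SimpleGraph (Fin n) → Prop) (anti : ∀ G H, G ≤ H → f H → f G)
    (inv : ∀ (σ : Equiv.Perm (Fin n)) G, f (G.comap σ) ↔ f G) (bot : f ⊥)
    (s : Finset (Sym2 (Fin n)) → SimpleGraph (Fin n) → Sym2 (Fin n))
    (hs : ∀ Q G H, (∀ e ∈ Q, (e ∈ G.edgeSet ↔ e ∈ H.edgeSet)) → s Q G = s Q H)
    (h : ∀ G H, (∀ e ∈ (fun Q => insert (s Q G) Q)^[d] ∅, (e ∈ G.edgeSet ↔ e ∈ H.edgeSet)) →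
      f H → f G)
    [Field K] [Fintype K] [DecidableEq K] [Algebra (ZMod 2) K]
    (ins : ∀ (H : SimpleGraph K) (φ ψ : Fin n → K),
      (∀ i, q ≤ (univ.filter fun x => φ x = i).card) →
      (∀ i, q ≤ (univ.filter fun x => ψ x = i).card) → f (H.comap φ) → f (H.comap ψ))
    (a : K → ℕ) (ha0 : a 0 = 0) (ha : ∀ i, i ≠ 0 → q ≤ 2 ^ a i) {b : ℕ} (hb : ∀ i, 2 ^ a i ≤ b)
    {N m : ℕ} (hN : ∑ i, 2 ^ a i = N) (hm : q ≤ m + 1) (hn : N + m = n)
    (hd : d + N * b < (N + 1).choose 2)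
    (φ : Fin n → K) (hφ : ∀ i, q ≤ (univ.filter fun x => φ x = i).card) :
    f ((⊤ : SimpleGraph K).comap φ) := by
  let W := Σ i : K, (Fin (a i) → ZMod 2)
  have hW : Fintype.card W = N := by
    rw [← hN, Fintype.card_sigma]
    simp
  let e : Fin n ≃ W ⊕ Fin m := (Fintype.equivFinOfCardEq (by simp [hW, hn])).symm
  let w0 : W := ⟨0, 0⟩
  let π : Fin n → W := fun x => (e x).elim id fun _ => w0
  let lab : W → K := Sigma.fst
  let ρ : ((Σ i : K, Fin (a i)) → ZMod 2) → Equiv.Perm W := fun u =>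
    Equiv.sigmaCongrRight fun i => Equiv.addLeft fun j => u ⟨i, j⟩
  have hρ : ∀ u i y, ρ u ⟨i, y⟩ = ⟨i, (fun j => u ⟨i, j⟩) + y⟩ := fun _ _ _ => rfl
  have hρ0 : ∀ u, ρ u w0 = w0 := fun u => by
    rw [hρ]
    congr 1
    funext j
    exact absurd j.2 (by simp [ha0])
  have hfib : ∀ i, q ≤ (univ.filter fun x => lab (π x) = i).card := by
    intro i
    by_cases hi : i = 0
    · subst hi
      refine hm.trans (le_trans (le_of_eq (by simp)) (card_le_card_of_injOn
        (s := (univ : Finset (Option (Fin m))))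
        (fun o => e.symm (o.elim (Sum.inl w0) Sum.inr)) (fun o _ => ?_) fun o _ o' _ h => ?_))
      · cases o <;> simp [π, lab, w0]
      · cases o <;> cases o' <;> simp_all
    · refine (ha i hi).trans (le_trans (le_of_eq (by simp)) (card_le_card_of_injOn
        (s := (univ : Finset (Fin (a i) → ZMod 2)))
        (fun y => e.symm (Sum.inl ⟨i, y⟩)) (fun y _ => ?_) fun y _ y' _ h => ?_))
      · simp [π, lab]
      · exact sigma_mk_injective (Sum.inl_injective (e.symm.injective h))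
  have hcard : d < Fintype.card (Pr lab) := by
    have := card_Pr lab (b := b) fun i => by
      refine le_trans (card_le_card (t := univ.image fun y : Fin (a i) → ZMod 2 => (⟨i, y⟩ : W))
        ?_) (card_image_le.trans (le_trans (le_of_eq (by simp)) (hb i)))
      rintro ⟨j, y⟩ hj
      obtain rfl : j = i := (mem_filter.1 hj).2
      exact mem_image.2 ⟨y, mem_univ _, rfl⟩
    rw [hW] at this
    omega
  obtain ⟨r, hr⟩ := exists_rank (Pr lab)
  obtain ⟨r', hr'⟩ := exists_rank (Pr (id : K → K))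
  obtain ⟨v0⟩ : Nonempty (Pr lab) := Fintype.card_pos_iff.1 (by omega)
  have hA : Acyc (ZMod 2) r {A | f ((gr A).comap π)} := by
    refine acyc_subst hr (fun e (G : SimpleGraph (Fin n)) => e ∈ G.edgeSet)
      (fun A => (gr A).comap π) f (fun X Y hXY => anti _ _ fun x y hxy => gr_mono hXY hxy) s hs
      (fun e => if h : ¬ ((e.map π).map lab).IsDiag then ⟨e.map π, h⟩ else v0) (fun e X Y => ?_)
      d hcard h
    induction e using Sym2.ind with
    | _ x y =>
      simp only [SimpleGraph.mem_edgeSet, SimpleGraph.comap_adj, gr_adj]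
      by_cases hxy : lab (π x) = lab (π y)
      · simp [hxy]
      · intro h1
        have h0 : (if h : ¬ ((s(x, y).map π).map lab).IsDiag then ⟨s(x, y).map π, h⟩ else v0 :
          Pr lab) = mkP (π x) (π y) hxy := dif_pos (by simpa using hxy)
        rw [h0] at h1
        exact ⟨fun ⟨h2, h3⟩ => ⟨h2, h1.1 h3⟩, fun ⟨h2, h3⟩ => ⟨h2, h1.2 h3⟩⟩
  have hB := stepA (lab := lab) (fun i => ⟨⟨i, 0⟩, rfl⟩) ρ
    (Equiv.ext fun ⟨i, y⟩ => by rw [hρ]; congr 1; exact zero_add y)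
    (fun u u' => Equiv.ext fun ⟨i, y⟩ => by
      rw [Equiv.Perm.mul_apply, hρ, hρ, hρ, ← add_assoc]; rfl)
    (fun u ⟨i, y⟩ => rfl)
    (by
      rintro ⟨i, x⟩ ⟨j, y⟩ ⟨i', x'⟩ ⟨j', y'⟩ (rfl : i = i') (rfl : j = j') (hij : i ≠ j)
      let t : ∀ l : K, Fin (a l) → ZMod 2 := Pi.single i (x' - x) + Pi.single j (y' - y)
      refine ⟨fun p => t p.1 p.2, ?_, ?_⟩
      · refine congrArg (Sigma.mk i) ?_
        change t i + x = x'
        simp [t, Pi.single_eq_of_ne hij]
      · refine congrArg (Sigma.mk j) ?_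
        change t j + y = y'
        simp [t, Pi.single_eq_of_ne hij.symm])
    (fun G => f (G.comap π)) (fun G H hGH => anti _ _ fun x y hxy => hGH hxy)
    (fun u G => by
      rw [← inv (e.trans ((Equiv.sumCongr (ρ u) (Equiv.refl _)).trans e.symm)) (G.comap π)]
      refine iff_of_eq (congrArg f ?_)
      have : ∀ x, π (e.symm ((Equiv.sumCongr (ρ u) (Equiv.refl _)) (e x))) = ρ u (π x) := by
        intro x
        simp only [π, Equiv.apply_symm_apply]
        cases e x <;> simp [hρ0]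
      ext x y
      simp only [SimpleGraph.comap_adj, Equiv.trans_apply, this]) hr hA hr'
  have hC := stepB (fun H => f (H.comap fun x => lab (π x)))
    (fun G H hGH => anti _ _ fun x y hxy => hGH hxy)
    (fun σ G => by
      have h1 : ∀ i, q ≤ (univ.filter fun x => σ (lab (π x)) = i).card := fun i => by
        simpa only [← Equiv.eq_symm_apply] using hfib (σ.symm i)
      exact ⟨ins G _ _ h1 hfib, ins G _ _ hfib h1⟩)
    (anti _ _ (fun x y hxy => hxy) bot) hr' hB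
  exact ins _ _ _ hfib hφ hC

lemma exists_pair [Field K] [Fintype K] [DecidableEq K] {n q : ℕ} (h0 : q ≤ Fintype.card K)
    (h1 : Fintype.card K * q ≤ n) (h2 : n ≤ Fintype.card K * Fintype.card K) :
    ∃ φ ψ : Fin n → K, (∀ i, q ≤ (univ.filter fun x => φ x = i).card) ∧
      (∀ i, q ≤ (univ.filter fun x => ψ x = i).card) ∧ ∀ x y, φ x = φ y → ψ x = ψ y → x = y := by
  obtain ⟨S, -, hS⟩ := exists_subset_card_eq (s := (univ : Finset K)) (n := q) h0
  obtain ⟨T, hT1, -, hT⟩ := exists_subsuperset_card_eq (n := n)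
    (subset_univ ((univ ×ˢ S).image fun p : K × K => (p.1, p.1 + p.2)))
    (card_image_le.trans (by rw [card_product, hS]; exact h1)) (by simpa using h2)
  let e := T.equivFinOfCardEq hT
  have hm : ∀ x, ∀ t ∈ S, (x, x + t) ∈ T := fun x t ht =>
    hT1 (mem_image.2 ⟨(x, t), mem_product.2 ⟨mem_univ _, ht⟩, rfl⟩)
  refine ⟨fun x => (e.symm x).1.1, fun x => (e.symm x).1.2, fun i => ?_, fun i => ?_,
    fun x y h h' => e.symm.injective (Subtype.ext (Prod.ext h h'))⟩
  · rw [← hS, ← card_attach]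
    refine card_le_card_of_injOn (fun t => e ⟨(i, i + t.1), hm i _ t.2⟩) (fun t _ => by simp)
      fun t _ t' _ h => Subtype.ext ?_
    simpa using h
  · rw [← hS, ← card_attach]
    refine card_le_card_of_injOn (fun t => e ⟨(i - t.1, i - t.1 + t.1), hm _ _ t.2⟩)
      (fun t _ => by simp) fun t _ t' _ h => Subtype.ext ?_
    simpa using h

lemma exists_params {q n d : ℕ} (hq : 1 ≤ q) (hn : 16 * q ^ 2 ≤ n)
    (hd : d + 8 * q * n ≤ n.choose 2) :
    ∃ a c t m : ℕ, c ≠ 0 ∧ t < 2 ^ c ∧ q ≤ 2 ^ a ∧ q ≤ m + 1 ∧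
      (1 + (2 ^ c - 1) * 2 ^ a + t * 2 ^ a) + m = n ∧
      d + (1 + (2 ^ c - 1) * 2 ^ a + t * 2 ^ a) * 2 ^ (a + 1) <
        (1 + (2 ^ c - 1) * 2 ^ a + t * 2 ^ a + 1).choose 2 ∧
      q ≤ 2 ^ c ∧ 2 ^ c * q ≤ n ∧ n ≤ 2 ^ c * 2 ^ c := by
  have h1 : q < 2 ^ (Nat.log 2 q + 1) := Nat.lt_pow_succ_log_self one_lt_two q
  have h2 : 2 ^ (Nat.log 2 q + 1) ≤ 2 * q := by
    rw [pow_succ']
    exact Nat.mul_le_mul_left 2 (Nat.pow_log_le_self 2 (by omega))
  generalize Nat.log 2 q + 1 = a at h1 h2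
  obtain ⟨s, hs⟩ : ∃ s, s = 2 ^ a := ⟨_, rfl⟩
  rw [← hs] at h1 h2
  have h3 := Nat.div_add_mod n s
  have h4 := Nat.mod_lt n (by omega : s > 0)
  generalize n / s = M at h3
  generalize n % s = r at h3 h4
  have h5 : 2 ≤ M := by
    by_contra hc
    have : s * M ≤ s * 1 := Nat.mul_le_mul_left _ (by omega)
    nlinarith
  have h6 : M < 2 ^ (Nat.log 2 M + 1) := Nat.lt_pow_succ_log_self one_lt_two M
  have h7 : 2 ^ Nat.log 2 M ≤ M := Nat.pow_log_le_self 2 (by omega)
  generalize Nat.log 2 M = c at h6 h7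
  have hc : c ≠ 0 := by
    rintro rfl
    omega
  rw [pow_succ] at h6
  obtain ⟨k, hk⟩ : ∃ k, 2 ^ c = k + 1 := ⟨2 ^ c - 1, by have := Nat.one_le_two_pow (n := c); omega⟩
  obtain ⟨t, rfl⟩ : ∃ t, M = k + 1 + t := ⟨M - (k + 1), by omega⟩
  obtain ⟨m, hm⟩ : ∃ m, s + r = m + 1 := ⟨s + r - 1, by omega⟩
  refine ⟨a, c, t, m, hc, by omega, by omega, by omega, ?_⟩
  rw [pow_succ, ← hs, hk, Nat.add_sub_cancel]
  have h8 : 1 + k * s + t * s + m = n := by nlinarith
  have h9 : n < 4 * q * (k + 1) := by nlinarith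
  have h10 : 4 * q < k + 1 := by nlinarith
  refine ⟨h8, ?_, by omega, by nlinarith, by nlinarith⟩
  generalize 1 + k * s + t * s = N at h8
  have e1 : ((n.choose 2 : ℕ) : ℚ) = n * (n - 1) / 2 := Nat.cast_choose_two ℚ n
  have e2 : (((N + 1).choose 2 : ℕ) : ℚ) = (N + 1 : ℕ) * ((N + 1 : ℕ) - 1) / 2 :=
    Nat.cast_choose_two ℚ (N + 1)
  have h11 : m ≤ 4 * q := by omega
  have h12 : 1 ≤ n := by nlinarith
  subst h8
  qify at hd h2 h11 h12 hq ⊢
  push_cast at e1 e2
  rw [e1] at hd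
  rw [e2]
  have h13 : (0 : ℚ) ≤ N := N.cast_nonneg
  have h14 : (0 : ℚ) ≤ m := m.cast_nonneg
  nlinarith [mul_le_mul_of_nonneg_left h2 h13, mul_le_mul_of_nonneg_left h11 h13,
    mul_le_mul_of_nonneg_left h11 h14, mul_nonneg (zero_le_one.trans hq) h14]

lemma run_eq {α β : Type} [DecidableEq α] (mem : α → β → Prop) (s : Finset α → β → α)
    (hs : ∀ Q x y, (∀ e ∈ Q, (mem e x ↔ mem e y)) → s Q x = s Q y) (x y : β) (m : ℕ)
    (h : ∀ e ∈ (fun Q => insert (s Q x) Q)^[m] ∅, (mem e x ↔ mem e y)) :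
    (fun Q => insert (s Q y) Q)^[m] ∅ = (fun Q => insert (s Q x) Q)^[m] ∅ := by
  induction m with
  | zero => rfl
  | succ m ih =>
    rw [Function.iterate_succ_apply'] at h
    have h1 := fun e he => h e (mem_insert_of_mem he)
    rw [Function.iterate_succ_apply', Function.iterate_succ_apply', ih h1, hs _ _ _ h1]

theorem twin {q n : ℕ} (hq : 1 ≤ q) (hn : 16 * q ^ 2 ≤ n) (P : SimpleGraph (Fin n) → Prop)
    (hmono : ∀ G H : SimpleGraph (Fin n), G ≤ H → P G → P H)
    (hinv : ∀ (σ : Fin n ≃ Fin n) (G : SimpleGraph (Fin n)), P G → P (G.map σ.toEmbedding))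
    (h1 : ∃ G : SimpleGraph (Fin n), P G) (h2 : ∃ G : SimpleGraph (Fin n), ¬ P G)
    (hins : ∀ (k : ℕ) (T : SimpleGraph (Fin k)) (φ ψ : Fin n → Fin k),
      (∀ i, q ≤ (univ.filter fun x => φ x = i).card) →
      (∀ i, q ≤ (univ.filter fun x => ψ x = i).card) →
      (P (T.comap φ) ↔ P (T.comap ψ)) ∧ (P (T.comap φ)ᶜ ↔ P (T.comap ψ)ᶜ))
    (s : Finset (Sym2 (Fin n)) → SimpleGraph (Fin n) → Sym2 (Fin n))
    (hs : ∀ (Q : Finset (Sym2 (Fin n))) (G H : SimpleGraph (Fin n)),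
      (∀ e ∈ Q, (e ∈ G.edgeSet ↔ e ∈ H.edgeSet)) → s Q G = s Q H)
    {d : ℕ} (hd : d + 8 * q * n ≤ n.choose 2)
    (h : ∀ G H : SimpleGraph (Fin n), (∀ e ∈ (fun Q => insert (s Q G) Q)^[d] ∅,
      (e ∈ G.edgeSet ↔ e ∈ H.edgeSet)) → P G → P H) : False := by
  classical
  obtain ⟨a, c, t, m, hc, ht, p1, p2, p3, p4, p5, p6, p7⟩ := exists_params hq hn hd
  let K := GaloisField 2 c
  let _ : Fintype K := Fintype.ofFinite K
  have hK : Fintype.card K = 2 ^ c := by
    rw [← Nat.card_eq_fintype_card]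
    exact GaloisField.card 2 c hc
  obtain ⟨D, hD1, hD⟩ := exists_subset_card_eq (s := (univ : Finset K).erase 0) (n := t) (by
    rw [card_erase_of_mem (mem_univ _), card_univ, hK]; omega)
  let A : K → ℕ := fun i => if i = 0 then 0 else if i ∈ D then a + 1 else a
  have hA0 : A 0 = 0 := if_pos rfl
  have hA1 : ∀ i, i ≠ 0 → q ≤ 2 ^ A i := fun i hi => by
    simp only [A, if_neg hi]
    split_ifs
    · rw [pow_succ]; omega
    · exact p1
  have hA2 : ∀ i, 2 ^ A i ≤ 2 ^ (a + 1) := fun i => by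
    refine Nat.pow_le_pow_right two_pos ?_
    simp only [A]
    split_ifs <;> omega
  have hA3 : ∑ i, 2 ^ A i = 1 + (2 ^ c - 1) * 2 ^ a + t * 2 ^ a := by
    have : ∀ i ∈ univ.erase (0 : K), 2 ^ A i = 2 ^ a + if i ∈ D then 2 ^ a else 0 := by
      intro i hi
      simp only [A, if_neg (ne_of_mem_erase hi)]
      split_ifs
      · rw [pow_succ]; omega
      · rfl
    rw [← add_sum_erase _ _ (mem_univ (0 : K)), hA0, sum_congr rfl this, sum_add_distrib,
      sum_ite_mem, inter_eq_right.2 hD1, sum_const, sum_const, card_erase_of_mem (mem_univ _),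
      card_univ, hK, hD, smul_eq_mul, smul_eq_mul, pow_zero, add_assoc]
  obtain ⟨φ, ψ, hφ, hψ, hφψ⟩ := exists_pair (K := K) (n := n) (q := q) (hK ▸ p5) (hK ▸ p6)
    (hK ▸ p7)
  have hins' : ∀ (T : SimpleGraph K) (φ ψ : Fin n → K),
      (∀ i, q ≤ (univ.filter fun x => φ x = i).card) →
      (∀ i, q ≤ (univ.filter fun x => ψ x = i).card) →
      (P (T.comap φ) ↔ P (T.comap ψ)) ∧ (P (T.comap φ)ᶜ ↔ P (T.comap ψ)ᶜ) := by
    intro T φ ψ hφ hψ
    let e := Fintype.equivFin K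
    have e1 : ∀ χ : Fin n → K, (T.comap e.symm).comap (fun x => e (χ x)) = T.comap χ := by
      intro χ
      ext x y
      simp
    have e2 : ∀ χ : Fin n → K, (∀ i, q ≤ (univ.filter fun x => χ x = i).card) →
        ∀ i, q ≤ (univ.filter fun x => e (χ x) = i).card := fun χ hχ i => by
      simpa only [← Equiv.eq_symm_apply] using hχ (e.symm i)
    rw [← e1 φ, ← e1 ψ]
    exact hins _ _ _ _ (e2 φ hφ) (e2 ψ hψ)
  have hinv1 : ∀ (σ : Equiv.Perm (Fin n)) G, P G → P (G.comap σ) := fun σ G hG => by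
    have := hinv σ.symm G hG
    rwa [← SimpleGraph.comap_symm] at this
  have hinv2 : ∀ (σ : Equiv.Perm (Fin n)) G, P (G.comap σ) ↔ P G := fun σ G => by
    refine ⟨fun hG => ?_, hinv1 σ G⟩
    have := hinv1 σ.symm _ hG
    rwa [SimpleGraph.comap_comap, Equiv.self_comp_symm, SimpleGraph.comap_id] at this
  have hcc : ∀ (G H : SimpleGraph (Fin n)) (e : Sym2 (Fin n)), (e ∈ G.edgeSet ↔ e ∈ H.edgeSet) →
      (e ∈ Gᶜ.edgeSet ↔ e ∈ Hᶜ.edgeSet) := fun G H e => by
    induction e using Sym2.ind with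
    | _ a b => intro h; simp only [SimpleGraph.mem_edgeSet, SimpleGraph.compl_adj] at h ⊢; rw [h]
  have c1 := core (fun G => ¬ P G) (fun G H hGH hH hG => hH (hmono G H hGH hG))
    (fun σ G => not_congr (hinv2 σ G)) (fun hb => h2.elim fun G hG => hG (hmono _ _ bot_le hb))
    s hs (fun G H hGH hH hG => hH (h G H hGH hG))
    (fun T φ ψ hφ hψ => (not_congr (hins' T φ ψ hφ hψ).1).1) A hA0 hA1 hA2 hA3 p2 p3 p4 φ hφ
  have c2 := core (fun G => P Gᶜ) (fun G H hGH => hmono _ _ (compl_le_compl hGH))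
    (fun σ G => by
      rw [← hinv2 σ Gᶜ]
      refine iff_of_eq (congrArg P ?_)
      ext x y
      simp)
    (h1.elim fun G hG => hmono _ _ (by simp) hG) (fun Q G => s Q Gᶜ)
    (fun Q G H hGH => hs Q _ _ fun e he => hcc G H e (hGH e he))
    (fun G H hGH => by
      have h3 := fun e he => hcc G H e (hGH e he)
      refine h _ _ ?_
      rw [run_eq (fun e (G : SimpleGraph (Fin n)) => e ∈ G.edgeSet) s hs _ _ d h3]
      exact fun e he => (h3 e he).symm)
    (fun T φ ψ hφ hψ => (hins' T φ ψ hφ hψ).2.1) A hA0 hA1 hA2 hA3 p2 p3 p4 ψ hψ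
  refine c1 (hmono _ _ (fun x y hxy => ?_) c2)
  simp only [SimpleGraph.compl_adj, SimpleGraph.comap_adj, SimpleGraph.top_adj, not_not] at hxy ⊢
  exact fun h3 => hxy.1 (hφψ x y h3 hxy.2)

end Pool.Agent.MP_257582_lc.H49
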